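import Pool.Agent.N990.EJ.Stm

/-!
# Project EJ (helper990), part CNS (helper371): consistency in the infinite lattice
-/

set_option autoImplicit false

open MeasureTheory
open Pool.Agent.N988.EA Pool.Agent.N990.EJ

namespace Pool.Agent.N371.EJ

theorem t_cns (h1 : Pool.Agent.N990.EJ.S_FIN) (h2 : Pool.Agent.N990.EJ.S_GEO) :
    Pool.Agent.N990.EJ.S_CNS := by
  intro β p n f ω
  obtain ⟨-, -, hemb, hinj, -, hrepl, hcomp, -, -, -, -, hcpl⟩ := h2 p
  have hends : ∀ (s : Vert 2 (n + 1) → Bool) (x : Pt 2 (n + 1)),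
      repl p (n + 1) ω.2 s (inc p (n + 1) x) =
        (Sum.elim (fun t => ω.2 (inc p (n + 1) (.inl t))) s : Pt 2 (n + 1) → Bool) x := by
    intro s x
    rcases x with t | y
    · have h3 : ∀ x, inc p (n + 1) (.inr x) ≠ inc p (n + 1) (.inl t) := by
        intro x hx
        have h4 := hinj (n + 1) hx
        cases h4
      exact (hrepl (n + 1) ω.2 s).2 _ h3
    · exact (hrepl (n + 1) ω.2 s).1 y
  have h3 := h1 n (fun e => β * cpl p ω.1 (n + 1) e) (p n)
    (fun t => ω.2 (inc p (n + 1) (.inl t))) (fun s => f (ω.1, repl p (n + 1) ω.2 s))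
  unfold GJ
  refine Eq.trans ?_ h3.symm
  refine Finset.sum_congr rfl fun s _ => ?_
  congr 1
  refine Finset.sum_congr rfl fun s' _ => ?_
  have e1 : (fun e => β * cpl p ω.1 n e) =
      (fun e : Edge 2 n => β * cpl p ω.1 (n + 1) ((p n).1, (p n).2, e)) := by
    funext e
    rw [hcpl]
  have e2 : (fun t : Bool => repl p (n + 1) ω.2 s (inc p n (.inl t))) =
      (fun t => (Sum.elim (fun t => ω.2 (inc p (n + 1) (.inl t))) s : Pt 2 (n + 1) → Bool)
        (emb (p n).1 (p n).2 (.inl t))) := by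
    funext t
    rw [← hends, hemb]
  show gw (fun e => β * cpl p ω.1 n e) (fun t => repl p (n + 1) ω.2 s (inc p n (.inl t))) s' *
      f (ω.1, repl p n (repl p (n + 1) ω.2 s) s') = _
  rw [e1, e2, hcomp]

end Pool.Agent.N371.EJ
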